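import Mathlib
import Pool.Agent.W667.DT.Main

set_option autoImplicit false

/-!
The global dimension and the bidimension of the Banach algebra of continuous functions on a compact
Hausdorff space are never equal to three.
-/

namespace Pool.Agent.Results.MP_75da70_an.NeverThree

open Pool.Agent.Helper832.GS

/-- For every compact Hausdorff space `Ω` the global dimension and the bidimension of the Banach
algebra `C(Ω)` are different from `3`. -/
theorem result (Ω : Type) [TopologicalSpace Ω] [CompactSpace Ω] [T2Space Ω] :
    dg C(Ω, ℂ) ≠ 3 ∧ db C(Ω, ℂ) ≠ 3 := by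
  have h1 := Pool.Agent.W667.DT.dg_eq Ω
  obtain ⟨h2, -⟩ := Pool.Agent.W667.DT.db_main Ω
  exact ⟨by rw [h1]; exact h2, h2⟩

end Pool.Agent.Results.MP_75da70_an.NeverThree
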